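import Mathlib

/-! A colouring of the complex numbers (so also of the rationals) with four colours and no
monochromatic `x, x + d, x + 1/d, x + d + 1/d`. -/

set_option autoImplicit false

namespace Pool.Agent.Results.MP_b33253_co.FourColours

/-- The colour of `z`: the residue modulo 4 of the integer part of the real part of `z ^ 2`. For a
rational number `z` this is the integer part of `z ^ 2` modulo 4. -/
noncomputable def colour (z : ℂ) : ZMod 4 := (⌊(z ^ 2).re⌋ : ZMod 4)

/-- For all complex `x` and `d ≠ 0` (so in particular for all rational ones) the four numbers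
`x, x + d, x + 1/d, x + d + 1/d` do not all have the same colour. -/
theorem result : ∀ x d : ℂ, d ≠ 0 →
    ¬ (colour (x + d) = colour x ∧ colour (x + 1 / d) = colour x ∧
      colour (x + d + 1 / d) = colour x) := by
  rintro x d hd ⟨h1, h2, h3⟩
  have key : (x + d + 1 / d) ^ 2 - (x + d) ^ 2 - (x + 1 / d) ^ 2 + x ^ 2 = 2 := by
    field_simp
    ring
  have key' : ((x + d + 1 / d) ^ 2).re - ((x + d) ^ 2).re - ((x + 1 / d) ^ 2).re + (x ^ 2).re
      = 2 := by
    have := congrArg Complex.re key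
    simpa only [Complex.sub_re, Complex.add_re, Complex.re_ofNat] using this
  unfold colour at h1 h2 h3
  generalize ((x + d + 1 / d) ^ 2).re = p at *
  generalize ((x + d) ^ 2).re = q at *
  generalize ((x + 1 / d) ^ 2).re = r at *
  generalize (x ^ 2).re = s at *
  have a0 := Int.floor_le s
  have b0 := Int.lt_floor_add_one s
  have a1 := Int.floor_le q
  have b1 := Int.lt_floor_add_one q
  have a2 := Int.floor_le r
  have b2 := Int.lt_floor_add_one r
  have a3 := Int.floor_le p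
  have b3 := Int.lt_floor_add_one p
  have u : ((⌊p⌋ - ⌊q⌋ - ⌊r⌋ + ⌊s⌋ : ℤ) : ℝ) < 4 := by
    push_cast
    linarith
  have l : (0 : ℝ) < ((⌊p⌋ - ⌊q⌋ - ⌊r⌋ + ⌊s⌋ : ℤ) : ℝ) := by
    push_cast
    linarith
  have u' : ⌊p⌋ - ⌊q⌋ - ⌊r⌋ + ⌊s⌋ < 4 := by exact_mod_cast u
  have l' : 0 < ⌊p⌋ - ⌊q⌋ - ⌊r⌋ + ⌊s⌋ := by exact_mod_cast l
  have h : ((⌊p⌋ - ⌊q⌋ - ⌊r⌋ + ⌊s⌋ : ℤ) : ZMod 4) = 0 := by
    push_cast
    rw [h1, h2, h3]
    ring
  rw [ZMod.intCast_zmod_eq_zero_iff_dvd] at h
  obtain ⟨k, hk⟩ := h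
  push_cast at hk
  omega

end Pool.Agent.Results.MP_b33253_co.FourColours
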